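import Pool.Agent.Q189.Sh6

set_option autoImplicit false

namespace Pool.Agent.Results.MP_625e57_gt.LocalGlobalShallow

open Pool.Agent.Q189.Sh

/-- Local versus global shallowness of convex circle polyhedra.
(1) In every convex c-polyhedron with positive inversive distance on adjacent pairs, all pairs of
distinct vertex disks have positive inversive distance; and if the cone contains a future timelike
vector, or contains no past timelike vector, it is globally shallow.
(2) In every such c-polyhedron either the disks or the complementary disks are globally shallow.
(3) If all supporting hyperplanes at vertex rays (not only facet hyperplanes) contain timelike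
vectors, it is globally shallow.
(4) There is a convex, hyperbolic, locally shallow c-polyhedron (with eight vertices) which is not
globally shallow. -/
theorem result :
    (∀ (N : ℕ) (n : Fin N → R31), ConvexCPolyhedron n →
      (∀ v w, Adjacent n v w → 0 < Inv (n v) (n w)) →
        (∀ v w, v ≠ w → 0 < Inv (n v) (n w)) ∧
        (((∃ y, InCone n y ∧ B y y < 0 ∧ 0 < y 3) ∨ ∀ y, InCone n y → B y y < 0 → 0 < y 3) →
          GloballyShallow n) ∧
        (GloballyShallow n ∨ GloballyShallow (-n)) ∧
        (HyperbolicAll n → GloballyShallow n)) ∧
    ∃ n : Fin 8 → R31, ConvexCPolyhedron n ∧ Hyperbolic n ∧ LocallyShallow n ∧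
      ¬ GloballyShallow n := by
  refine ⟨fun N n h hloc => ⟨fun v w hvw => ?_, fun hft => shallow_of h hloc hft,
    dichotomy h hloc, fun hh => shallow_of h hloc (Or.inl (future_of_hyperbolicAll h hh))⟩,
    cube, cube_polyhedron, cube_hyperbolic, cube_local, cube_not_global⟩
  exact (inv_pos_iff (h.spacelike v) (h.spacelike w)).mpr (all_neg h hloc v w hvw)

end Pool.Agent.Results.MP_625e57_gt.LocalGlobalShallow
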